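import Pool.Agent.Work.MP_2dba45_nt.LucasField

set_option autoImplicit false

namespace Pool.Agent.Results.MP_2dba45_nt.SparseCofactors

open Pool.Agent.Work.MP_2dba45_nt.Lucas

theorem V_upper {t : ℕ} (ht : 0 < t) : ∀ n, V t (n + 1) < (t + 1) ^ (n + 1)
  | 0 => by simp [V]
  | 1 => by
      simp only [V]
      ring_nf
      nlinarith
  | (n + 2) => by
      have h1 := V_upper ht (n + 1)
      have h0 := V_upper ht n
      rw [V_two_add]
      have h2 : t * V t (n + 1 + 1) ≤ t * (t + 1) ^ (n + 1 + 1) := Nat.mul_le_mul_left _ h1.le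
      calc t * V t (n + 1 + 1) + V t (n + 1) < t * (t + 1) ^ (n + 1 + 1) + (t + 1) ^ (n + 1) := by
            omega
        _ ≤ (t + 1) ^ (n + 2 + 1) := by
            have : (t + 1) ^ (n + 2 + 1) = (t + 1) ^ (n + 1) * (t + 1) ^ 2 := by ring
            rw [this, show t * (t + 1) ^ (n + 1 + 1) + (t + 1) ^ (n + 1) =
              (t + 1) ^ (n + 1) * (t * (t + 1) + 1) by ring]
            apply Nat.mul_le_mul_left
            nlinarith

theorem V_lower {t : ℕ} (ht : 0 < t) : ∀ n, n + 1 ≤ V t (n + 1)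
  | 0 => by simp only [V]; omega
  | (n + 1) => by
      have h1 := V_lower ht n
      have h2 : V t (n + 1) < V t (n + 1 + 1) := V_lt_succ ht n
      omega

theorem result (m₀ : ℕ) (hm₀ : 0 < m₀) (ℓ : ℕ) (hℓ : ℓ.Prime) (hℓ5 : 5 ≤ ℓ)
    (hnd : ¬ ℓ ∣ (m₀ ^ 2 + 1) * (m₀ ^ 2 + 3)) (j : ℕ) :
    ∃ m a b : ℕ, ℓ ^ j ≤ m ∧ m < (m₀ + 1) ^ (ℓ ^ j) ∧
      m ^ 2 + 1 = (m₀ ^ 2 + 1) * a ∧ m ^ 2 + 3 = (m₀ ^ 2 + 3) * b ∧
      Nat.Coprime a (m₀ ^ 2 + 1) ∧ Nat.Coprime b (m₀ ^ 2 + 3) ∧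
      (∀ r : ℕ, r.Prime → r ∣ a → (r % ℓ = 1 ∨ r % ℓ = ℓ - 1)) ∧
      (∀ r : ℕ, r.Prime → r ∣ b → r % ℓ = 1) := by
  have hk := coprime_six hℓ hℓ5 j
  have hkpos : 0 < ℓ ^ j := pow_pos hℓ.pos _
  obtain ⟨k', hk'⟩ := Nat.exists_eq_succ_of_ne_zero hkpos.ne'
  obtain ⟨a, ha, hak⟩ := V_sq_add_one m₀ (ℓ ^ j) hk
  obtain ⟨b, hb, hbk⟩ := V_sq_add_three m₀ (ℓ ^ j) hk
  set m := V m₀ (ℓ ^ j) with hm
  have ha0 : 0 ≤ a := by
    by_contra hneg
    push Not at hneg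
    have : ((m₀ : ℤ) ^ 2 + 1) * a < 0 := mul_neg_of_pos_of_neg (by positivity) hneg
    have h2 : (0 : ℤ) < (m : ℤ) ^ 2 + 1 := by positivity
    omega
  have hb0 : 0 ≤ b := by
    by_contra hneg
    push Not at hneg
    have : ((m₀ : ℤ) ^ 2 + 3) * b < 0 := mul_neg_of_pos_of_neg (by positivity) hneg
    have h2 : (0 : ℤ) < (m : ℤ) ^ 2 + 3 := by positivity
    omega
  obtain ⟨A, rfl⟩ := Int.eq_ofNat_of_zero_le ha0
  obtain ⟨B, rfl⟩ := Int.eq_ofNat_of_zero_le hb0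
  have hA : m ^ 2 + 1 = (m₀ ^ 2 + 1) * A := by exact_mod_cast ha
  have hB : m ^ 2 + 3 = (m₀ ^ 2 + 3) * B := by exact_mod_cast hb
  have hAcop : Nat.Coprime A (m₀ ^ 2 + 1) := by
    rw [Nat.coprime_comm]
    by_contra hc
    obtain ⟨r, hr, hr1, hr2⟩ := Nat.Prime.not_coprime_iff_dvd.1 hc
    have hrk : r ∣ ℓ ^ j := by
      have h1 : (r : ℤ) ∣ (m₀ : ℤ) ^ 2 + 1 := by exact_mod_cast Int.natCast_dvd_natCast.2 hr1
      have h2 : (r : ℤ) ∣ (A : ℤ) := Int.natCast_dvd_natCast.2 hr2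
      have h3 : (r : ℤ) ∣ ((ℓ ^ j : ℕ) : ℤ) := by
        rcases hak with h | h
        · have := h1.trans h
          have := dvd_sub h2 this
          simpa using this
        · have := h1.trans h
          exact (Int.dvd_iff_dvd_of_dvd_add this).1 h2
      exact Int.natCast_dvd_natCast.1 h3
    have hrl : r = ℓ := (Nat.prime_dvd_prime_iff_eq hr hℓ).1 (hr.dvd_of_dvd_pow hrk)
    subst hrl
    exact hnd (Dvd.dvd.mul_right hr1 _)
  have hBcop : Nat.Coprime B (m₀ ^ 2 + 3) := by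
    rw [Nat.coprime_comm]
    by_contra hc
    obtain ⟨r, hr, hr1, hr2⟩ := Nat.Prime.not_coprime_iff_dvd.1 hc
    have hrk : r ∣ ℓ ^ j := by
      have h1 : (r : ℤ) ∣ (m₀ : ℤ) ^ 2 + 3 := by exact_mod_cast Int.natCast_dvd_natCast.2 hr1
      have h2 : (r : ℤ) ∣ (B : ℤ) := Int.natCast_dvd_natCast.2 hr2
      have h3 : (r : ℤ) ∣ ((ℓ ^ j : ℕ) : ℤ) := by
        rcases hbk with h | h
        · have := h1.trans h
          have := dvd_sub h2 this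
          simpa using this
        · have := h1.trans h
          exact (Int.dvd_iff_dvd_of_dvd_add this).1 h2
      exact Int.natCast_dvd_natCast.1 h3
    have hrl : r = ℓ := (Nat.prime_dvd_prime_iff_eq hr hℓ).1 (hr.dvd_of_dvd_pow hrk)
    subst hrl
    exact hnd (Dvd.dvd.mul_left hr1 _)
  refine ⟨m, A, B, ?_, ?_, hA, hB, hAcop, hBcop, ?_, ?_⟩
  · rw [hm, hk']; exact V_lower hm₀ k'
  · rw [hm, hk']; exact V_upper hm₀ k'
  · intro r hr hrA
    apply prime_case1 hr hℓ hℓ5 (t := m₀) (j := j)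
    · rw [← hm, hA]; exact Dvd.dvd.mul_left hrA _
    · intro hrt
      exact (Nat.Prime.not_coprime_iff_dvd.2 ⟨r, hr, hrA, hrt⟩) hAcop
  · intro r hr hrB
    apply prime_case3 hr hℓ hℓ5 (t := m₀) (j := j)
    · rw [← hm, hB]; exact Dvd.dvd.mul_left hrB _
    · intro hrt
      exact (Nat.Prime.not_coprime_iff_dvd.2 ⟨r, hr, hrB, hrt⟩) hBcop

end Pool.Agent.Results.MP_2dba45_nt.SparseCofactors
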