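import Pool.Agent.Work.MP_2dba45_nt.LucasStrong

set_option autoImplicit false

namespace Pool.Agent.Results.MP_2dba45_nt.StrongLucas

open Pool.Agent.Work.MP_2dba45_nt.Lucas

/-- `d` is a strong Lucas probable prime with parameters `(t, -1)`: `d` is odd and prime to the
discriminant `t ^ 2 + 4`, and if `d - (t ^ 2 + 4 | d) = 2 ^ s * k` with `k` odd, then `d` divides
`U_k` or `V_{2 ^ r k}` for some `r < s`. -/
def SLPRP (t d : ℕ) : Prop :=
  Odd d ∧ Nat.Coprime d (t ^ 2 + 4) ∧ ∃ s k : ℕ, Odd k ∧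
    (d : ℤ) - jacobiSym ((t : ℤ) ^ 2 + 4) d = 2 ^ s * k ∧
      (d ∣ U t k ∨ ∃ r < s, d ∣ V t (2 ^ r * k))

theorem V_upper {t : ℕ} (ht : 0 < t) : ∀ n, V t (n + 1) < (t + 1) ^ (n + 1)
  | 0 => by simp [V]
  | 1 => by
      simp only [V]
      ring_nf
      nlinarith
  | (n + 2) => by
      have h1 := V_upper ht (n + 1)
      have h0 := V_upper ht n
      rw [V_two_add]
      have h2 : t * V t (n + 1 + 1) ≤ t * (t + 1) ^ (n + 1 + 1) := Nat.mul_le_mul_left _ h1.le
      calc t * V t (n + 1 + 1) + V t (n + 1) < t * (t + 1) ^ (n + 1 + 1) + (t + 1) ^ (n + 1) := by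
            omega
        _ ≤ (t + 1) ^ (n + 2 + 1) := by
            have : (t + 1) ^ (n + 2 + 1) = (t + 1) ^ (n + 1) * (t + 1) ^ 2 := by ring
            rw [this, show t * (t + 1) ^ (n + 1 + 1) + (t + 1) ^ (n + 1) =
              (t + 1) ^ (n + 1) * (t * (t + 1) + 1) by ring]
            apply Nat.mul_le_mul_left
            nlinarith

theorem V_lower {t : ℕ} (ht : 0 < t) : ∀ n, n + 1 ≤ V t (n + 1)
  | 0 => by simp only [V]; omega
  | (n + 1) => by
      have h1 := V_lower ht n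
      have h2 : V t (n + 1) < V t (n + 1 + 1) := V_lt_succ ht n
      omega

/-- divisors of the number `V_{3^(j+1)} ^ 2 + c`, `c = 1` or `3` -/
theorem slprp_of_dvd {t : ℕ} (ht : ¬ 3 ∣ t) (j : ℕ) {c d : ℕ} (hc : c = 1 ∨ c = 3) (hd1 : 1 < d)
    (hd : d ∣ V t (3 ^ (j + 1)) ^ 2 + c) : SLPRP t d := by
  set m := V t (3 ^ (j + 1)) with hm
  set R := 3 ^ (j + 1 + 1) with hR
  have hm2 : 2 ∣ m := even_V t j
  have hm3 : ¬ 3 ∣ m := three_not_dvd ht (j + 1)
  have hRodd : Odd R := odd_three_pow _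
  have hnodd : Odd (3 ^ (j + 1)) := odd_three_pow _
  -- the number is odd and not divisible by 3
  have hNodd : Odd (m ^ 2 + c) := by
    obtain ⟨a, ha⟩ := hm2
    rcases hc with rfl | rfl
    · exact ⟨2 * a ^ 2, by rw [ha]; ring⟩
    · exact ⟨2 * a ^ 2 + 1, by rw [ha]; ring⟩
  have hN3 : ¬ 3 ∣ m ^ 2 + c := by
    intro h
    rcases hc with rfl | rfl
    · have h1 : m % 3 = 1 ∨ m % 3 = 2 := by omega
      have h2 : (m ^ 2 + 1) % 3 = 0 := Nat.mod_eq_zero_of_dvd h
      rcases h1 with h1 | h1 <;> simp [Nat.add_mod, Nat.pow_mod, h1] at h2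
    · exact hm3 (Nat.prime_three.dvd_of_dvd_pow ((Nat.dvd_add_left dvd_rfl).1 h))
  have hdodd : Odd d := Odd.of_dvd_nat hNodd hd
  have hprime : ∀ p : ℕ, p.Prime → p ∣ d →
      ((R : ℕ) : ℤ) ∣ (p : ℤ) - jacobiSym ((t : ℤ) ^ 2 + 4) p := by
    intro p hp hpd
    apply prime_symbol hp _ _ hc (hpd.trans hd)
    · rintro rfl
      have h1 := hpd.trans hd
      rw [← even_iff_two_dvd] at h1
      exact (Nat.not_even_iff_odd.2 hNodd) h1
    · rintro rfl
      exact hN3 (hpd.trans hd)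
  have hRd := dvd_symbol d (by omega) hprime
  -- the discriminant
  have hfour := V_sq_add_four t hnodd
  rw [← hm] at hfour
  have hcop : Nat.Coprime d (t ^ 2 + 4) := by
    by_contra hcon
    obtain ⟨p, hp, hp1, hp2⟩ := Nat.Prime.not_coprime_iff_dvd.1 hcon
    have h1 : p ∣ m ^ 2 + 4 := by
      rw [hfour]
      exact Dvd.dvd.mul_right hp2 _
    have h2 : p ∣ m ^ 2 + c := hp1.trans hd
    rcases hc with rfl | rfl
    · have h3 : p ∣ 3 := by
        have := (Nat.dvd_sub h1 h2)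
        rwa [show m ^ 2 + 4 - (m ^ 2 + 1) = 3 by omega] at this
      have h4 := (Nat.prime_dvd_prime_iff_eq hp Nat.prime_three).1 h3
      subst h4
      exact hN3 h2
    · have h3 : p ∣ 1 := by
        have := (Nat.dvd_sub h1 h2)
        rwa [show m ^ 2 + 4 - (m ^ 2 + 3) = 1 by omega] at this
      exact hp.one_lt.ne' (Nat.dvd_one.1 h3)
  -- the number `d - (t ^ 2 + 4 | d)`
  have hJle : jacobiSym ((t : ℤ) ^ 2 + 4) d ≤ 1 := by
    rcases jacobiSym.trichotomy ((t : ℤ) ^ 2 + 4) d with h | h | h <;> rw [h] <;> norm_num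
  obtain ⟨D, hD⟩ : ∃ D : ℕ, (d : ℤ) - jacobiSym ((t : ℤ) ^ 2 + 4) d = D := by
    refine ⟨((d : ℤ) - jacobiSym ((t : ℤ) ^ 2 + 4) d).toNat, ?_⟩
    rw [Int.toNat_of_nonneg]
    have : (1 : ℤ) < d := by exact_mod_cast hd1
    omega
  have hD0 : D ≠ 0 := by
    rintro rfl
    have : (1 : ℤ) < d := by exact_mod_cast hd1
    push_cast at hD
    omega
  obtain ⟨s, k, hk, hDk⟩ := Nat.exists_eq_two_pow_mul_odd hD0
  have hRD : R ∣ D := by
    rw [hD] at hRd
    exact Int.natCast_dvd_natCast.1 hRd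
  have hRk : R ∣ k := by
    have h1 : Nat.Coprime R (2 ^ s) :=
      ((Nat.coprime_two_right).2 hRodd).pow_right s
    rw [hDk] at hRD
    exact h1.dvd_of_dvd_mul_left hRD
  obtain ⟨b, hb⟩ := hRk
  refine ⟨hdodd, hcop, s, k, hk, ?_, ?_⟩
  · rw [hD, hDk]
    push_cast
    rfl
  · rcases hc with rfl | rfl
    · left
      have h1 : d ∣ U t R := by
        have h2 := U_three_mul t hnodd
        rw [show 3 * 3 ^ (j + 1) = R by rw [hR]; ring, ← hm] at h2
        rw [h2]
        exact Dvd.dvd.mul_left hd _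
      rw [hb]
      exact h1.trans (U_dvd t hRodd b)
    · right
      -- the symbol is one
      have hJ : jacobiSym ((t : ℤ) ^ 2 + 4) d = 1 := by
        have hUmod : (((t : ℤ) ^ 2 + 4) * (U t (3 ^ (j + 1)) : ℤ) ^ 2) % d = 1 % d := by
          have h1 : (((t : ℤ) ^ 2 + 4) * (U t (3 ^ (j + 1)) : ℤ) ^ 2) = (m : ℤ) ^ 2 + 4 := by
            exact_mod_cast hfour.symm
          rw [h1]
          have h2 : (d : ℤ) ∣ (m : ℤ) ^ 2 + 3 := by exact_mod_cast Int.natCast_dvd_natCast.2 hd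
          apply Int.emod_emod_of_dvd _ (dvd_refl _) |>.symm.trans _
          rw [show (m : ℤ) ^ 2 + 4 = ((m : ℤ) ^ 2 + 3) + 1 by ring, Int.emod_emod_of_dvd _ (dvd_refl _)]
          rw [Int.add_emod, Int.emod_eq_zero_of_dvd h2, zero_add, Int.emod_emod_of_dvd _ (dvd_refl _)]
        have h3 : jacobiSym (((t : ℤ) ^ 2 + 4) * (U t (3 ^ (j + 1)) : ℤ) ^ 2) d = 1 := by
          rw [jacobiSym.mod_left, hUmod, ← jacobiSym.mod_left, jacobiSym.one_left]
        rw [jacobiSym.mul_left, jacobiSym.pow_left] at h3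
        rcases jacobiSym.trichotomy (U t (3 ^ (j + 1)) : ℤ) d with h | h | h
        · rw [h] at h3; norm_num at h3
        · rw [h] at h3; simpa using h3
        · rw [h] at h3; simpa using h3
      have hs : 0 < s := by
        rcases Nat.eq_zero_or_pos s with h | h
        · exfalso
          rw [hJ] at hD
          rw [h, pow_zero, one_mul] at hDk
          rw [hDk] at hD
          obtain ⟨x, hx⟩ := hdodd
          obtain ⟨y, hy⟩ := hk
          rw [hx, hy] at hD
          push_cast at hD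
          omega
        · exact h
      refine ⟨0, hs, ?_⟩
      rw [pow_zero, one_mul]
      have h1 : d ∣ V t R := by
        have h2 := V_three_mul t hnodd
        rw [show 3 * 3 ^ (j + 1) = R by rw [hR]; ring, ← hm] at h2
        rw [h2]
        exact Dvd.dvd.mul_left hd _
      have hbodd : Odd b := by
        rw [hb] at hk
        exact (Nat.odd_mul.1 hk).2
      obtain ⟨b', rfl⟩ := hbodd
      rw [hb]
      exact h1.trans (V_dvd t hRodd b')

theorem result (t : ℕ) (ht : ¬ 3 ∣ t) (M : ℕ) :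
    ∃ m > M, (∀ p : ℕ, p.Prime → p ∣ (m ^ 2 + 1) * (m ^ 2 + 3) → m ^ 5 < (t + 1) ^ p) ∧
      ∀ d : ℕ, 1 < d → (d ∣ m ^ 2 + 1 ∨ d ∣ m ^ 2 + 3) → SLPRP t d := by
  have ht0 : 0 < t := by
    rcases Nat.eq_zero_or_pos t with h | h
    · subst h; exact absurd (dvd_zero 3) ht
    · exact h
  set n := 3 ^ (M + 1) with hn
  have hnM : M < n := (Nat.lt_succ_self M).trans (Nat.lt_pow_self (by norm_num))
  obtain ⟨n', hn'⟩ := Nat.exists_eq_succ_of_ne_zero (show n ≠ 0 by omega)
  have hlow : n ≤ V t n := by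
    rw [hn']
    exact V_lower ht0 n'
  have hup : V t n < (t + 1) ^ n := by
    rw [hn']
    exact V_upper ht0 n'
  refine ⟨V t n, by omega, ?_, ?_⟩
  · intro p hp hpd
    have hc : ∃ c, (c = 1 ∨ c = 3) ∧ p ∣ V t n ^ 2 + c := by
      rcases (Nat.Prime.dvd_mul hp).1 hpd with h | h
      · exact ⟨1, Or.inl rfl, h⟩
      · exact ⟨3, Or.inr rfl, h⟩
    obtain ⟨c, hc, hpc⟩ := hc
    have hS := slprp_of_dvd ht M hc hp.one_lt hpc
    have hp2 : p ≠ 2 := by
      rintro rfl
      exact absurd hS.1 (by decide)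
    have hp3 : p ≠ 3 := by
      rintro rfl
      have hm3 : ¬ 3 ∣ V t n := three_not_dvd ht (M + 1)
      rcases hc with rfl | rfl
      · have h1 : V t n % 3 = 1 ∨ V t n % 3 = 2 := by omega
        have h2 : (V t n ^ 2 + 1) % 3 = 0 := Nat.mod_eq_zero_of_dvd hpc
        rcases h1 with h1 | h1 <;> simp [Nat.add_mod, Nat.pow_mod, h1] at h2
      · exact hm3 (Nat.prime_three.dvd_of_dvd_pow ((Nat.dvd_add_left dvd_rfl).1 hpc))
    have hR := prime_symbol hp hp2 hp3 hc hpc
    have hodd : Odd p := hS.1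
    have h5n : 5 * n ≤ p := by
      obtain ⟨z, hz⟩ := hR
      have hp1 : (1 : ℤ) < p := by exact_mod_cast hp.one_lt
      have hpodd : ∃ y : ℤ, (p : ℤ) = 2 * y + 1 := by
        obtain ⟨y, hy⟩ := hodd
        exact ⟨y, by exact_mod_cast hy⟩
      have hR3 : ((3 ^ (M + 1 + 1) : ℕ) : ℤ) = 3 * n := by
        rw [hn]; push_cast; ring
      have hn1 : (1 : ℤ) ≤ n := by
        have : 1 ≤ n := by omega
        exact_mod_cast this
      have hnodd : ∃ y : ℤ, (n : ℤ) = 2 * y + 1 := by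
        obtain ⟨y, hy⟩ := odd_three_pow (M + 1)
        exact ⟨y, by rw [hn]; exact_mod_cast hy⟩
      rw [hR3] at hz
      have hJ : jacobiSym ((t : ℤ) ^ 2 + 4) p = 1 ∨ jacobiSym ((t : ℤ) ^ 2 + 4) p = -1 := by
        have hcop : IsCoprime ((t : ℤ) ^ 2 + 4) (p : ℤ) := by
          have := (Nat.isCoprime_iff_coprime.2 hS.2.1).symm
          exact_mod_cast this
        have h3 := jacobiSym.ne_zero (Int.isCoprime_iff_gcd_eq_one.1 hcop)
        rcases jacobiSym.trichotomy ((t : ℤ) ^ 2 + 4) p with h | h | h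
        · exact absurd h h3
        · exact Or.inl h
        · exact Or.inr h
      obtain ⟨y, hy⟩ := hpodd
      obtain ⟨x, hx⟩ := hnodd
      -- `z` is positive and even
      have hzpos : 0 < z := by
        by_contra hneg
        push Not at hneg
        have h6 : 3 * (n : ℤ) * z ≤ 0 := mul_nonpos_of_nonneg_of_nonpos (by positivity) hneg
        rcases hJ with h | h <;> rw [h] at hz <;> omega
      have hzev : ∃ w : ℤ, z = 2 * w := by
        rcases Int.even_or_odd' z with ⟨w, hw | hw⟩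
        · exact ⟨w, hw⟩
        · exfalso
          have h6 : 3 * (n : ℤ) * z = 2 * (3 * (2 * x * w + x + w) + 1) + 1 := by
            rw [hw, hx]; ring
          rcases hJ with h | h <;> rw [h] at hz <;> omega
      obtain ⟨w, rfl⟩ := hzev
      have hw : 1 ≤ w := by omega
      have h6 : 6 * (n : ℤ) ≤ 3 * (n : ℤ) * (2 * w) := by nlinarith
      have h7 : 5 * (n : ℤ) ≤ p := by
        rcases hJ with h | h <;> rw [h] at hz <;> omega
      exact_mod_cast h7
    calc V t n ^ 5 < ((t + 1) ^ n) ^ 5 := Nat.pow_lt_pow_left hup (by norm_num)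
      _ = (t + 1) ^ (5 * n) := by rw [← pow_mul, mul_comm]
      _ ≤ (t + 1) ^ p := Nat.pow_le_pow_right (by omega) h5n
  · rintro d hd1 (hd | hd)
    · exact slprp_of_dvd ht M (Or.inl rfl) hd1 hd
    · exact slprp_of_dvd ht M (Or.inr rfl) hd1 hd

end Pool.Agent.Results.MP_2dba45_nt.StrongLucas
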